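import Pool.Agent.T6.H35.BO.Tup

/-!
# Almost prime tuples in all short windows and in short arcs modulo one

`Adm h`: for every prime `p` there is `a` such that `p` divides none of the `a + h_i`.
`Tuples h F c T z M X` is the set of the `M < m ≤ M + X` for which the fractional part of `F (m)` is
smaller than `c` and for which all the `m + h_i` are products of at most `T` primes larger than `z`.
`ManyTuples h a t C δ X F`: for all `M ≤ X ^ a` and all `X ^ (- δ) ≤ c ≤ 1` there are at least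
`c X / (log X) ^ C` such `m`, with `T = (a + 2) t` and `z = X ^ (1 / t)`.
-/

set_option autoImplicit false

namespace Pool.Agent.Results.MP_43e117_nt.AlmostPrimeTuplesInArcs

open Polynomial
open Pool.Agent.T6.H35.BO (ManyTuples Adm)

theorem result :
    (∀ K k : ℕ, 1 ≤ k → ∀ τ : ℝ, 1 ≤ τ → ∃ t C : ℕ, 1 ≤ t ∧ ∃ δ : ℝ, 0 < δ ∧
      ∀ (a : ℕ) (h : Fin K → ℕ), Adm h → ∀ c₀ : ℝ, 0 < c₀ → ∃ X₀ : ℕ, ∀ X : ℕ, X₀ ≤ X →
        ∀ F : ℝ[X], F.natDegree = k →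
        (∀ d : ℕ, 1 ≤ d → ∀ b : ℤ, c₀ / (d : ℝ) ^ τ ≤ |d * F.leadingCoeff - b|) →
        ManyTuples h a t C δ X F) ∧
    (∀ K k : ℕ, 1 ≤ k → ∃ t C : ℕ, 1 ≤ t ∧ ∃ δ : ℝ, 0 < δ ∧
      ∀ (a : ℕ) (h : Fin K → ℕ), Adm h → ∀ α : ℝ, Irrational α → ∀ B : ℕ, ∃ X : ℕ, B ≤ X ∧
        ∀ F : ℝ[X], F.natDegree = k → F.leadingCoeff = α → ManyTuples h a t C δ X F) ∧
    Adm ![0, 2] :=
  ⟨fun K k hk τ hτ => Pool.Agent.T6.H35.BO.tup_type K k hk τ hτ,
    fun K k hk => Pool.Agent.T6.H35.BO.tup_irr K k hk, Pool.Agent.T6.H35.BO.adm_twin⟩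

end Pool.Agent.Results.MP_43e117_nt.AlmostPrimeTuplesInArcs
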